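import Pool.Agent.Lib.MP_b9b22b_co.Defs

/-!
The linear regime: interfaces. Everything in this folder proves that the i-th largest adjacency
eigenvalue of a graph on n vertices can be as large as (1 - ε) √(n (n - i) / i) / 2.
-/

set_option autoImplicit false

namespace Pool.Agent.Lib.MP_b9b22b_co.Lin

open Finset

open scoped Classical in
/-- `Big n i θ`: for some graph on `n` vertices the quadratic form of the adjacency matrix is at
least `θ` times the square of the norm on an `i`-dimensional subspace. -/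
def Big (n i : ℕ) (θ : ℝ) : Prop :=
  ∃ G : SimpleGraph (Fin n), ∃ L : (Fin i → ℝ) →ₗ[ℝ] (Fin n → ℝ), Function.Injective L ∧
    ∀ f, θ * ∑ v, (L f v) ^ 2 ≤ ∑ v, ∑ w, (if G.Adj v w then L f v * L f w else 0)

/-- A signed graph with the eigenvalue `q - p` on a space of dimension `w = (p / q) k`, and all of
whose vertices have degree `p (q - p)`. -/
structure Template (p q : ℕ) where
  /-- number of vertices -/
  k : ℕ
  /-- dimension of the eigenspace -/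
  w : ℕ
  /-- the signed adjacency matrix -/
  E : Fin k → Fin k → ℤ
  symm : ∀ a b, E a b = E b a
  diag : ∀ a, E a a = 0
  small : ∀ a b, E a b = 0 ∨ E a b = 1 ∨ E a b = -1
  deg : ∀ a, ∑ b, E a b ^ 2 = (p : ℤ) * ((q : ℤ) - p)
  card : q * w = p * k
  kpos : 0 < k
  /-- parametrization of the eigenspace -/
  L : (Fin w → ℝ) →ₗ[ℝ] (Fin k → ℝ)
  inj : Function.Injective L
  eig : ∀ f a, ∑ b, (E a b : ℝ) * L f b = ((q : ℝ) - p) * L f a

/-- Decomposition of the complete graph on `ZMod P` into copies `a ↦ s φ(a) + t` of the graph `R` on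
`Fin k`, where `s` runs through a set of `s₀` multipliers and `t` through `ZMod P`. -/
def BaseDec (k : ℕ) (R : Fin k → Fin k → Prop) (P s₀ : ℕ) : Prop :=
  ∃ (S : Finset (ZMod P)) (φ : Fin k → ZMod P), S.card = s₀ ∧
    (∀ s ∈ S, ∀ a b, R a b → s * (φ b - φ a) ≠ 0) ∧
    ∀ δ : ZMod P, δ ≠ 0 → ∃! x : ZMod P × Fin k × Fin k,
      x.1 ∈ S ∧ R x.2.1 x.2.2 ∧ x.1 * (φ x.2.2 - φ x.2.1) = δ

open scoped Classical in
/-- `v` groups, divided into classes, and `c` copies of the graph `R` on `Fin k` such that any two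
groups of different classes are joined by exactly one edge of exactly one copy, and no group is used
more than `r` times. -/
structure Sys (k : ℕ) (R : Fin k → Fin k → Prop) (v c r : ℕ) where
  /-- the class of a group -/
  cls : Fin v → ℕ
  /-- the copies -/
  pl : Fin c → Fin k → Fin v
  sep : ∀ i a b, R a b → cls (pl i a) ≠ cls (pl i b)
  cov : ∀ g g', cls g ≠ cls g' → ∃! x : Fin c × Fin k × Fin k,
    R x.2.1 x.2.2 ∧ pl x.1 x.2.1 = g ∧ pl x.1 x.2.2 = g'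
  port : ∀ g, (univ.filter fun x : Fin c × Fin k => pl x.1 x.2 = g).card ≤ r

/-- TEMPL: signed Johnson graphs. -/
def TemplStatement : Prop := ∀ p q : ℕ, 0 < p → p < q → Nonempty (Template p q)

/-- MIX: mixing for multiplicative characters. -/
def MixStatement : Prop :=
  ∀ (P : ℕ) [Fact P.Prime] (χ : MulChar (ZMod P) ℂ), χ ≠ 1 → ∀ X Y : Finset (ZMod P),
    ‖∑ x ∈ X, ∑ y ∈ Y, χ (y - x)‖ ^ 2 ≤ (P : ℝ) * X.card * Y.card

/-- EMB: every coloured complete graph on `k` vertices embeds in the cyclotomic colouring. -/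
def EmbStatement : Prop :=
  ∀ (e k : ℕ), 0 < e → ∀ β : ℝ, 0 < β → ∃ P₀ : ℕ, ∀ (P : ℕ) [Fact P.Prime], P₀ ≤ P →
    ∀ (χ : MulChar (ZMod P) ℂ) (ω : ℂ), orderOf χ = e → IsPrimitiveRoot ω e →
      ∀ (κ : Fin k → Fin k → ℕ) (V : Fin k → Finset (ZMod P)), (∀ i, β * P ≤ (V i).card) →
        ∃ φ : Fin k → ZMod P, (∀ i, φ i ∈ V i) ∧ ∀ i j, i < j → χ (φ j - φ i) = ω ^ κ i j

/-- DEC: decompositions of complete graphs of arbitrarily large prime order. -/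
def DecStatement : Prop :=
  ∀ (k : ℕ) (R : Fin k → Fin k → Prop), (∀ a b, R a b → R b a) → (∀ a, ¬ R a a) →
    (∃ a b, R a b) → ∀ B : ℕ, ∃ P s₀ : ℕ, P.Prime ∧ B < P ∧ BaseDec k R P s₀

/-- SYS: the transversal design construction. -/
def SysStatement : Prop :=
  ∀ (k : ℕ) (R : Fin k → Fin k → Prop) (P m s₀ : ℕ), P.Prime → 0 < m →
    Nat.Coprime m (Nat.factorial (P - 1)) → BaseDec k R P s₀ →
      Nonempty (Sys k R (P * m) (s₀ * P * m ^ 2) (m * s₀ * k))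

/-- GRAPH: from a system of copies to a graph. -/
def GraphStatement : Prop :=
  ∀ (p q : ℕ) (T : Template p q) (v c r a : ℕ), Nonempty (Sys T.k (fun x y => T.E x y ≠ 0) v c r) →
    r ≤ 2 ^ a → Big (v * 2 ^ a) (c * T.w) (2 ^ a * ((q : ℝ) - p) / 2 - 1)

/-- BLOCK: graphs on about `4 ^ a p (q - p)` vertices. -/
def BlockStatement : Prop :=
  ∀ p q : ℕ, 0 < p → p < q → ∀ ε : ℝ, 0 < ε → ∃ a₀ : ℕ, ∀ a : ℕ, a₀ ≤ a → ∃ n i : ℕ,
    (n : ℝ) ≤ (1 + ε) * 4 ^ a * (p * ((q : ℝ) - p)) ∧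
    (1 - ε) * 4 ^ a * (p * ((q : ℝ) - p)) * (p / q) ≤ i ∧
    Big n i (2 ^ a * ((q : ℝ) - p) / 2 - 1)

/-- RATIO: one ratio `p / q`, all large `n`. -/
def RatioStatement : Prop :=
  ∀ p q : ℕ, 0 < p → p < q → ∀ δ : ℝ, 0 < δ → ∃ n₀ : ℕ, ∀ n i : ℕ, n₀ ≤ n →
    (i : ℝ) ≤ (1 - δ) * (p / q) * n → Big n i ((1 - δ) * √(n * (((q : ℝ) - p) / p)) / 2)

/-- UNI: the uniform lower bound. -/
def UniStatement : Prop :=
  ∀ ε : ℝ, 0 < ε → ∃ C : ℕ, ∀ n i : ℕ, C ≤ i → (i : ℝ) ≤ (1 - ε) * n →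
    Big n i ((1 - ε) * √(n * (n - i) / i) / 2)

/-- BASIC 1: monotonicity. -/
def MonoStatement : Prop :=
  ∀ (n n' i i' : ℕ) (θ θ' : ℝ), n ≤ n' → i' ≤ i → θ' ≤ θ → Big n i θ → Big n' i' θ'

/-- BASIC 2: blow-up. -/
def BlowStatement : Prop :=
  ∀ (n i t : ℕ) (θ : ℝ), 0 < t → Big n i θ → Big (t * n) i (t * θ)

/-- BASIC 3: the eigenvalue. -/
def LamStatement : Prop :=
  ∀ (n i : ℕ) (θ : ℝ), 1 ≤ i → Big n i θ → i ≤ n ∧ ∃ G : SimpleGraph (Fin n), θ ≤ lam G i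

/-- BASIC 4: the complement. -/
def ComplStatement : Prop :=
  ∀ (n i : ℕ) (θ : ℝ), 1 ≤ i → Big n (i + 1) θ →
    ∃ G : SimpleGraph (Fin n), lam G (n - i + 1) ≤ -(1 + θ)

/-- The final theorem. -/
def FinalStatement : Prop :=
  ∀ ε : ℝ, 0 < ε → ∃ C : ℕ, ∀ n i : ℕ,
    (C ≤ i → (i : ℝ) ≤ (1 - ε) * n → ∀ x, IsGreatest (eigSet i n) x →
      (1 - ε) * (√((n : ℝ) * (n - i) / i) / 2) ≤ x ∧ x ≤ (1 + ε) * (√((n : ℝ) * (n - i) / i) / 2)) ∧
    (C + i ≤ n → ε * n ≤ i → ∀ x, IsLeast (eigSet i n) x →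
      -(1 + ε) * (√((n : ℝ) * i / (n - i)) / 2) ≤ x ∧ x ≤ -(1 - ε) * (√((n : ℝ) * i / (n - i)) / 2))

end Pool.Agent.Lib.MP_b9b22b_co.Lin
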